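import Pool.Agent.R357.WS.Final

set_option autoImplicit false

open Filter

namespace Pool.Agent.Results.MP_3c4aa6_nt.PositiveDim

/-- The Weyl sum `S_d(x; N) = ∑_{n=1}^N exp(2πi(x_1 n + x_2 n^2 + ... + x_d n^d))`; the coordinate
`x_{j+1}` of the problem is `x j` here. -/
noncomputable def weylSum {d : ℕ} (x : EuclideanSpace ℝ (Fin d)) (N : ℕ) : ℂ :=
  ∑ n ∈ Finset.Icc 1 N,
    Complex.exp (2 * Real.pi * Complex.I * ((∑ j : Fin d, x j * (n : ℝ) ^ (j.val + 1) : ℝ) : ℂ))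

/-- `log |z| / log N` in the extended reals, with `log 0 = -∞`. -/
noncomputable def logRatio (z : ℂ) (N : ℕ) : EReal :=
  if z = 0 then ⊥ else ((Real.log ‖z‖ / Real.log N : ℝ) : EReal)

/-- The growth exponent `σ(x) = limsup_{N → ∞} log |S_d(x; N)| / log N`. -/
noncomputable def sigma {d : ℕ} (x : EuclideanSpace ℝ (Fin d)) : EReal :=
  limsup (fun N : ℕ => logRatio (weylSum x N) N) atTop

/-- `Ω_α^{(d)} = {x ∈ [0,1)^d : σ(x) = α}`. -/
def Omega (d : ℕ) (α : ℝ) : Set (EuclideanSpace ℝ (Fin d)) :=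
  {x | (∀ j, 0 ≤ x j ∧ x j < 1) ∧ sigma x = (α : EReal)}

lemma sigma_eq {d : ℕ} (x : EuclideanSpace ℝ (Fin d)) (a : ℝ) (ha : 0 < a)
    (hup : ∀ s : ℝ, a < s → ∃ C : ℝ, ∀ᶠ N : ℕ in atTop, ‖weylSum x N‖ ≤ C * (N : ℝ) ^ s)
    (hlow : ∀ s : ℝ, 0 < s → s < a → ∀ C : ℝ,
      ¬ ∀ᶠ N : ℕ in atTop, ‖weylSum x N‖ ≤ C * (N : ℝ) ^ s) :
    sigma x = (a : EReal) := by
  apply le_antisymm
  · refine le_of_forall_gt_imp_ge_of_dense fun c hc => ?_
    obtain ⟨s, hs1, hs2⟩ := EReal.lt_iff_exists_real_btwn.1 hc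
    refine le_trans ?_ hs2.le
    have hs : a < s := EReal.coe_lt_coe_iff.1 hs1
    obtain ⟨C, hC⟩ := hup ((a + s) / 2) (by linarith)
    apply limsup_le_of_le
    · isBoundedDefault
    have ht := (tendsto_rpow_atTop (show 0 < s - (a + s) / 2 by linarith)).comp
      tendsto_natCast_atTop_atTop
    filter_upwards [hC, ht.eventually_ge_atTop |C|, eventually_ge_atTop 2] with N h1 h2 h3
    simp only [Function.comp] at h2
    unfold logRatio
    split_ifs with h4
    · exact bot_le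
    · have hN : (2 : ℝ) ≤ N := by exact_mod_cast h3
      have hN0 : (0 : ℝ) < N := by linarith
      have hlog : 0 < Real.log N := Real.log_pos (by linarith)
      rw [EReal.coe_le_coe_iff, div_le_iff₀ hlog, ← Real.log_rpow hN0]
      apply Real.log_le_log (norm_pos_iff.2 h4)
      calc ‖weylSum x N‖ ≤ C * (N : ℝ) ^ ((a + s) / 2) := h1
        _ ≤ |C| * (N : ℝ) ^ ((a + s) / 2) := by gcongr; exact le_abs_self C
        _ ≤ (N : ℝ) ^ (s - (a + s) / 2) * (N : ℝ) ^ ((a + s) / 2) := by gcongr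
        _ = (N : ℝ) ^ s := by rw [← Real.rpow_add hN0]; congr 1; ring
  · refine le_of_forall_lt_imp_le_of_dense fun c hc => ?_
    obtain ⟨s, hs1, hs2⟩ := EReal.lt_iff_exists_real_btwn.1 hc
    have hs : s < a := EReal.coe_lt_coe_iff.1 hs2
    refine hs1.le.trans ?_
    have hle : (s : EReal) ≤ ((max s (a / 2) : ℝ) : EReal) := by
      rw [EReal.coe_le_coe_iff]; exact le_max_left _ _
    refine hle.trans ?_
    apply le_limsup_of_frequently_le
    · by_contra hcon
      rw [not_frequently] at hcon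
      refine hlow (max s (a / 2)) (lt_max_of_lt_right (by linarith))
        (max_lt hs (by linarith)) 1 ?_
      filter_upwards [hcon, eventually_ge_atTop 2] with N h1 h3
      have hN : (2 : ℝ) ≤ N := by exact_mod_cast h3
      have hN0 : (0 : ℝ) < N := by linarith
      have hlog : 0 < Real.log N := Real.log_pos (by linarith)
      rw [one_mul]
      by_cases h4 : weylSum x N = 0
      · rw [h4, norm_zero]; positivity
      · unfold logRatio at h1
        rw [if_neg h4, not_le, EReal.coe_lt_coe_iff, div_lt_iff₀ hlog, ← Real.log_rpow hN0] at h1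
        exact ((Real.log_lt_log_iff (norm_pos_iff.2 h4) (by positivity)).1 h1).le
    · isBoundedDefault

/-- The point `(x1, x2, 0, ..., 0)`. -/
noncomputable def pt (d : ℕ) (x1 x2 : ℝ) : EuclideanSpace ℝ (Fin d) :=
  WithLp.toLp 2 (fun j : Fin d => if j.val = 0 then x1 else if j.val = 1 then x2 else 0)

lemma pt_apply (d : ℕ) (x1 x2 : ℝ) (j : Fin d) :
    pt d x1 x2 j = if j.val = 0 then x1 else if j.val = 1 then x2 else 0 := rfl

lemma weylSum_pt (d : ℕ) (hd : 2 ≤ d) (x1 x2 : ℝ) (N : ℕ) :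
    weylSum (pt d x1 x2) N = Pool.R357.WS.S x1 x2 N := by
  obtain ⟨d, rfl⟩ : ∃ d', d = d' + 2 := ⟨d - 2, by omega⟩
  unfold weylSum Pool.R357.WS.S Pool.R357.WS.e
  symm
  refine Finset.sum_nbij' (fun n : ℤ => n.toNat) (fun n : ℕ => (n : ℤ)) ?_ ?_ ?_ ?_ ?_
  · intro n hn
    rw [Finset.mem_Ioc] at hn
    rw [Finset.mem_Icc]
    omega
  · intro n hn
    rw [Finset.mem_Icc] at hn
    rw [Finset.mem_Ioc]
    omega
  · intro n hn
    rw [Finset.mem_Ioc] at hn
    omega
  · intro n _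
    simp
  · intro n hn
    rw [Finset.mem_Ioc] at hn
    have h1 : ((n.toNat : ℕ) : ℝ) = (n : ℝ) := by
      have : ((n.toNat : ℕ) : ℤ) = n := Int.toNat_of_nonneg (by omega)
      exact_mod_cast this
    have h2 : (∑ j : Fin (d + 2), (pt (d + 2) x1 x2) j * ((n.toNat : ℕ) : ℝ) ^ (j.val + 1)) =
        x1 * n + x2 * n ^ 2 := by
      rw [Fin.sum_univ_succ, Fin.sum_univ_succ]
      simp only [pt_apply, h1]
      simp
    rw [h2]
    congr 1
    push_cast
    ring

/-- For every `d ≥ 2` and every `α ∈ (2/3, 1)`, `Ω_α^{(d)}` has positive Hausdorff dimension; hence for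
every `d ≥ 2` there is a set `A ⊆ [0,1]` of positive Lebesgue measure with `dim Ω_α^{(d)} > 0` for all
`α ∈ A`. -/
theorem result :
    (∀ d : ℕ, 2 ≤ d → ∀ α : ℝ, 2 / 3 < α → α < 1 → 0 < dimH (Omega d α)) ∧
    (∀ d : ℕ, 2 ≤ d → ∃ A : Set ℝ, A ⊆ Set.Icc 0 1 ∧ MeasurableSet A ∧ 0 < MeasureTheory.volume A ∧
      ∀ α ∈ A, 0 < dimH (Omega d α)) := by
  have key : ∀ d : ℕ, 2 ≤ d → ∀ α : ℝ, 2 / 3 < α → α < 1 → 0 < dimH (Omega d α) := by
    intro d hd α hα1 hα2
    set τ : ℝ := 1 / (1 - α) with hτd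
    have h1α : 0 < 1 - α := by linarith
    have hτ : 3 < τ := by
      rw [hτd, lt_div_iff₀ h1α]; linarith
    have hατ : 1 - 1 / τ = α := by
      rw [hτd]; field_simp; ring
    have hmem : ∀ ε : ℕ → Fin 2, pt d (Pool.R357.WS.F τ ε) (Pool.R357.WS.X2 τ) ∈ Omega d α := by
      intro ε
      refine ⟨?_, ?_⟩
      · intro j
        rw [pt_apply]
        split_ifs
        · exact ⟨Pool.R357.WS.F_nonneg ε, Pool.R357.WS.F_lt ε⟩
        · exact ⟨Pool.R357.WS.X2_nonneg hτ, Pool.R357.WS.X2_lt hτ⟩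
        · exact ⟨le_rfl, one_pos⟩
      · apply sigma_eq _ α (by linarith)
        · intro s hs
          simp only [weylSum_pt d hd]
          exact Pool.R357.WS.upper hτ _ s (by rw [hατ]; exact hs)
        · intro s hs0 hs C
          simp only [weylSum_pt d hd]
          exact Pool.R357.WS.lower_inf hτ _ (Pool.R357.WS.F_approx hτ ε) s hs0
            (by rw [hατ]; exact hs) C
    have hproj : LipschitzWith 1 (fun x : EuclideanSpace ℝ (Fin d) => x ⟨0, by omega⟩) := by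
      apply LipschitzWith.of_dist_le_mul
      intro x y
      rw [NNReal.coe_one, one_mul, dist_eq_norm, dist_eq_norm]
      exact PiLp.norm_apply_le (x - y) (⟨0, by omega⟩ : Fin d)
    have h2 : Set.range (Pool.R357.WS.F τ) ⊆
        (fun x : EuclideanSpace ℝ (Fin d) => x ⟨0, by omega⟩) '' Omega d α := by
      rintro _ ⟨ε, rfl⟩
      refine ⟨_, hmem ε, ?_⟩
      simp [pt_apply]
    calc 0 < dimH (Set.range (Pool.R357.WS.F τ)) := Pool.R357.WS.dimH_range_F hτ
      _ ≤ _ := dimH_mono h2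
      _ ≤ dimH (Omega d α) := hproj.dimH_image_le _
  refine ⟨key, fun d hd => ⟨Set.Ioo (2 / 3) 1, ?_, measurableSet_Ioo, ?_, ?_⟩⟩
  · intro x hx
    exact ⟨by linarith [hx.1], hx.2.le⟩
  · rw [Real.volume_Ioo]
    norm_num
  · intro α hα
    exact key d hd α hα.1 hα.2

end Pool.Agent.Results.MP_3c4aa6_nt.PositiveDim
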